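import Pool.Agent.L7h74.HS.Stm

/-!
# Project HS, part UNI: interpretations are unique up to isomorphism
-/

set_option autoImplicit false

namespace Pool.Agent.L7h75.HS

open CategoryTheory Opposite Limits MonoidalCategory Simplicial
open Pool.Agent.L7h74.HS

/-- the product with an object over `B` -/
noncomputable abbrev FA {B : SSet.{0}} (A T : Over B) : Over B :=
  (Over.map A.hom).obj ((Over.pullback A.hom).obj T)

noncomputable abbrev FAm {B : SSet.{0}} (A : Over B) {T T' : Over B} (h : T ⟶ T') :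
    FA A T ⟶ FA A T' :=
  (Over.map A.hom).map ((Over.pullback A.hom).map h)

/-- functoriality in `A` -/
noncomputable def PP {B : SSet.{0}} {A A' : Over B} (j : A ⟶ A') (T : Over B) : FA A T ⟶ FA A' T :=
  Over.homMk (pullback.lift (pullback.fst T.hom A.hom) (pullback.snd T.hom A.hom ≫ j.left) (by
    rw [Category.assoc, Over.w j, pullback.condition])) (by
    change pullback.lift _ _ _ ≫ pullback.snd _ _ ≫ A'.hom = pullback.snd _ _ ≫ A.hom
    rw [← Category.assoc, pullback.lift_snd, Category.assoc, Over.w j])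

theorem PP_fst {B : SSet.{0}} {A A' : Over B} (j : A ⟶ A') (T : Over B) :
    (PP j T).left ≫ pullback.fst T.hom A'.hom = pullback.fst T.hom A.hom :=
  pullback.lift_fst _ _ _

theorem PP_snd {B : SSet.{0}} {A A' : Over B} (j : A ⟶ A') (T : Over B) :
    (PP j T).left ≫ pullback.snd T.hom A'.hom = pullback.snd T.hom A.hom ≫ j.left :=
  pullback.lift_snd _ _ _

theorem FA_fst {B : SSet.{0}} (A : Over B) {T T' : Over B} (h : T ⟶ T') :
    (FAm A h).left ≫ pullback.fst T'.hom A.hom = pullback.fst T.hom A.hom ≫ h.left :=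
  pullback.lift_fst _ _ _

theorem FA_snd {B : SSet.{0}} (A : Over B) {T T' : Over B} (h : T ⟶ T') :
    (FAm A h).left ≫ pullback.snd T'.hom A.hom = pullback.snd T.hom A.hom :=
  pullback.lift_snd _ _ _

theorem PP_nat {B : SSet.{0}} {A A' : Over B} (j : A ⟶ A') {T T' : Over B} (h : T ⟶ T') :
    FAm A h ≫ PP j T' = PP j T ≫ FAm A' h := by
  apply Over.OverMorphism.ext
  refine pullback.hom_ext (f := T'.hom) (g := A'.hom) ?_ ?_
  · change ((FAm A h).left ≫ (PP j T').left) ≫ _ = ((PP j T).left ≫ (FAm A' h).left) ≫ _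
    rw [Category.assoc, PP_fst, FA_fst, Category.assoc, FA_fst, ← Category.assoc, PP_fst]
  · change ((FAm A h).left ≫ (PP j T').left) ≫ _ = ((PP j T).left ≫ (FAm A' h).left) ≫ _
    rw [Category.assoc, PP_snd, ← Category.assoc, FA_snd, Category.assoc, FA_snd, PP_snd]

theorem PP_comp {B : SSet.{0}} {A A' A'' : Over B} (j : A ⟶ A') (j' : A' ⟶ A'') (T : Over B) :
    PP j T ≫ PP j' T = PP (j ≫ j') T := by
  apply Over.OverMorphism.ext
  refine pullback.hom_ext (f := T.hom) (g := A''.hom) ?_ ?_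
  · change ((PP j T).left ≫ (PP j' T).left) ≫ _ = (PP (j ≫ j') T).left ≫ _
    rw [Category.assoc, PP_fst, PP_fst, PP_fst]
  · change ((PP j T).left ≫ (PP j' T).left) ≫ _ = (PP (j ≫ j') T).left ≫ _
    rw [Category.assoc, PP_snd, ← Category.assoc, PP_snd, Category.assoc, PP_snd]
    rfl

theorem PP_id {B : SSet.{0}} (A T : Over B) : PP (𝟙 A) T = 𝟙 _ := by
  apply Over.OverMorphism.ext
  refine pullback.hom_ext (f := T.hom) (g := A.hom) ?_ ?_
  · rw [PP_fst]
    exact (Category.id_comp _).symm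
  · rw [PP_snd]
    exact (Category.comp_id _).trans (Category.id_comp _).symm

theorem imp_half {B : SSet.{0}} {A A' C C' E E' : Over B} (i : A ≅ A') (l : C ≅ C')
    (ev : FA A E ⟶ C) (ev' : FA A' E' ⟶ C')
    (h : ∀ (T : Over B) (g : FA A T ⟶ C), ∃! k : T ⟶ E, FAm A k ≫ ev = g)
    (f : E ⟶ E') (g : E' ⟶ E) (hf : FAm A' f ≫ ev' = PP i.inv E ≫ ev ≫ l.hom)
    (hg : FAm A g ≫ ev = PP i.hom E' ≫ ev' ≫ l.inv) : f ≫ g = 𝟙 E := by
  obtain ⟨k, -, hk⟩ := h E ev
  have h1 : FAm A (f ≫ g) ≫ ev = ev := by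
    have e1 : FAm A (f ≫ g) = FAm A f ≫ FAm A g := by
      unfold FAm
      rw [Functor.map_comp, Functor.map_comp]
    rw [e1, Category.assoc, hg, ← Category.assoc, PP_nat, Category.assoc, ← Category.assoc (FAm A' f),
      hf, Category.assoc, Category.assoc, l.hom_inv_id, Category.comp_id, ← Category.assoc, PP_comp,
      i.hom_inv_id, PP_id, Category.id_comp]
  have h2 : FAm A (𝟙 E) ≫ ev = ev := by
    have e1 : FAm A (𝟙 E) = 𝟙 _ := by
      unfold FAm
      rw [CategoryTheory.Functor.map_id, CategoryTheory.Functor.map_id]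
    rw [e1, Category.id_comp]
  exact (hk _ h1).trans (hk _ h2).symm

theorem s_UNI : S_UNI := by
  intro X n φ
  induction φ with
  | top =>
    intro E E' hE hE'
    obtain ⟨h⟩ := hE
    obtain ⟨h'⟩ := hE'
    exact ⟨h.uniqueUpToIso h'⟩
  | bot =>
    intro E E' hE hE'
    obtain ⟨h⟩ := hE
    obtain ⟨h'⟩ := hE'
    exact ⟨h.uniqueUpToIso h'⟩
  | eq i j =>
    intro E E' hE hE'
    obtain ⟨H, hH⟩ := hE
    obtain ⟨H', hH'⟩ := hE'
    obtain ⟨f, hf, -⟩ := hH' E H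
    obtain ⟨g, hg, -⟩ := hH E' H'
    have key : ∀ {E : Over (pw X _)} (H : SSet.Homotopy (E.hom ≫ pr X i) (E.hom ≫ pr X j)),
        ((𝟙 E : E ⟶ E).left ▷ (SSet.stdSimplex.obj (SimplexCategory.mk 1) : SSet.{0})) ≫ H.h = H.h := by
      intro E H
      change (𝟙 E.left) ▷ _ ≫ H.h = H.h
      rw [id_whiskerRight, Category.id_comp]
    refine ⟨⟨f, g, ?_, ?_⟩⟩
    · obtain ⟨k, -, hk⟩ := hH E H
      refine (hk (f ≫ g) ?_).trans (hk (𝟙 E) (key H)).symm
      change ((f.left ≫ g.left) ▷ _) ≫ H.h = H.h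
      rw [comp_whiskerRight, Category.assoc, hg, hf]
    · obtain ⟨k, -, hk⟩ := hH' E' H'
      refine (hk (g ≫ f) ?_).trans (hk (𝟙 E') (key H')).symm
      change ((g.left ≫ f.left) ▷ _) ≫ H'.h = H'.h
      rw [comp_whiskerRight, Category.assoc, hf, hg]
  | and φ ψ ih1 ih2 =>
    intro E E' hE hE'
    obtain ⟨A, B, hA, hB, a, b, ⟨hl⟩⟩ := hE
    obtain ⟨A', B', hA', hB', a', b', ⟨hl'⟩⟩ := hE'
    obtain ⟨i⟩ := ih1 A A' hA hA'
    obtain ⟨j⟩ := ih2 B B' hB hB'
    exact ⟨IsLimit.conePointsIsoOfNatIso hl hl' (mapPairIso i j)⟩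
  | or φ ψ ih1 ih2 =>
    intro E E' hE hE'
    obtain ⟨A, B, hA, hB, a, b, ⟨hl⟩⟩ := hE
    obtain ⟨A', B', hA', hB', a', b', ⟨hl'⟩⟩ := hE'
    obtain ⟨i⟩ := ih1 A A' hA hA'
    obtain ⟨j⟩ := ih2 B B' hB hB'
    exact ⟨IsColimit.coconePointsIsoOfNatIso hl hl' (mapPairIso i j)⟩
  | imp φ ψ ih1 ih2 =>
    intro E E' hE hE'
    obtain ⟨A, B, hA, hB, ev, hev⟩ := hE
    obtain ⟨A', B', hA', hB', ev', hev'⟩ := hE'
    obtain ⟨i⟩ := ih1 A A' hA hA'
    obtain ⟨l⟩ := ih2 B B' hB hB'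
    obtain ⟨f, hf, -⟩ := hev' E (PP i.inv E ≫ ev ≫ l.hom)
    obtain ⟨g, hg, -⟩ := hev E' (PP i.hom E' ≫ ev' ≫ l.inv)
    exact ⟨⟨f, g, imp_half i l ev ev' hev f g hf hg,
      imp_half i.symm l.symm ev' ev hev' g f hg hf⟩⟩
  | @all n φ ih =>
    intro E E' hE hE'
    obtain ⟨A, hA, ev, hev⟩ := hE
    obtain ⟨A', hA', ev', hev'⟩ := hE'
    obtain ⟨i⟩ := ih A A' hA hA'
    obtain ⟨f, hf, -⟩ := hev' E (ev ≫ i.hom)
    obtain ⟨g, hg, -⟩ := hev E' (ev' ≫ i.inv)
    refine ⟨⟨f, g, ?_, ?_⟩⟩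
    · obtain ⟨k, -, hk⟩ := hev E ev
      refine (hk (f ≫ g) ?_).trans (hk (𝟙 E) ?_).symm
      · beta_reduce
        rw [Functor.map_comp, Category.assoc, hg, ← Category.assoc, hf, Category.assoc, i.hom_inv_id,
          Category.comp_id]
      · beta_reduce
        rw [CategoryTheory.Functor.map_id, Category.id_comp]
    · obtain ⟨k, -, hk⟩ := hev' E' ev'
      refine (hk (g ≫ f) ?_).trans (hk (𝟙 E') ?_).symm
      · beta_reduce
        rw [Functor.map_comp, Category.assoc, hf, ← Category.assoc, hg, Category.assoc, i.inv_hom_id,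
          Category.comp_id]
      · beta_reduce
        rw [CategoryTheory.Functor.map_id, Category.id_comp]
  | @ex n φ ih =>
    intro E E' hE hE'
    obtain ⟨A, hA, ⟨iso⟩⟩ := hE
    obtain ⟨A', hA', ⟨iso'⟩⟩ := hE'
    obtain ⟨i⟩ := ih A A' hA hA'
    exact ⟨iso ≪≫ (Over.map (prn X n)).mapIso i ≪≫ iso'.symm⟩

end Pool.Agent.L7h75.HS
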