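import Pool.Agent.L7h75.HS.Rep
import Pool.Agent.L7h74.HS.StmD

/-!
# Project HS, part BND: translation of the extension problems to simplicial sets
-/

set_option autoImplicit false

namespace Pool.Agent.L7h75.HS

open CategoryTheory Opposite Limits MonoidalCategory Simplicial
open Pool.Agent.L7h74.HS
open Pool.Agent.Helper922.HB.Sc (Sing)

/-- the simplices of the singular simplicial set -/
noncomputable def eq0 {X : Type} [TopologicalSpace X] (q : ℕ) : Sx (Sg X) q ≃ Sing X q :=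
  TopCat.toSSetObjEquiv (TopCat.of X) (op ⦋q⦌)

theorem eq0_map {X : Type} [TopologicalSpace X] {q r : ℕ} (θ : Fin (r + 1) →o Fin (q + 1))
    (z : Sx (Sg X) q) :
    eq0 r ((Sg X).map (SimplexCategory.mkHom θ).op z) = pl (eq0 q z) θ := by
  rfl

/-- a nonsurjective monotone map as a simplex of the boundary -/
def bs {q m : ℕ} (θ : Fin (q + 1) →o Fin (m + 1)) (h : ¬ Function.Surjective θ) :
    Sx (SSet.boundary m : SSet.{0}) q :=
  ⟨SSet.stdSimplex.objMk (n := ⦋m⦌) (m := op ⦋q⦌) θ, h⟩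

/-- the faces of a map from the boundary to the singular simplicial set -/
noncomputable def ph {X : Type} [TopologicalSpace X] {m : ℕ} (F : (SSet.boundary m : SSet.{0}) ⟶ Sg X)
    {q : ℕ} (θ : Fin (q + 1) →o Fin (m + 1)) (h : ¬ Function.Surjective θ) : Sing X q :=
  eq0 q (F.app _ (bs θ h))

theorem ph_comp {X : Type} [TopologicalSpace X] {m : ℕ} (F : (SSet.boundary m : SSet.{0}) ⟶ Sg X)
    {q r : ℕ} (θ : Fin (q + 1) →o Fin (m + 1)) (h : ¬ Function.Surjective θ)
    (η : Fin (r + 1) →o Fin (q + 1)) (h' : ¬ Function.Surjective (θ.comp η)) :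
    ph F (θ.comp η) h' = pl (ph F θ h) η := by
  unfold ph
  rw [← eq0_map]
  congr 1
  exact ConcreteCategory.congr_hom (F.naturality (SimplexCategory.mkHom η).op) (bs θ h)

/-- monotone retractions of a simplex on a face -/
theorem retr {n : ℕ} (S : Finset (Fin (n + 1))) (hS : S.Nonempty) :
    ∃ ρ : Fin (n + 1) →o Fin (n + 1), (∀ x, ρ x ∈ S) ∧ ∀ x ∈ S, ρ x = x := by
  classical
  let g : Fin (n + 1) → Fin (n + 1) := fun x =>
    if h : (S.filter (· ≤ x)).Nonempty then (S.filter (· ≤ x)).max' h else S.min' hS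
  have hg : ∀ x, g x ∈ S := by
    intro x
    by_cases h : (S.filter (· ≤ x)).Nonempty
    · have e : g x = (S.filter (· ≤ x)).max' h := dif_pos h
      rw [e]
      exact (Finset.mem_filter.1 (Finset.max'_mem _ h)).1
    · have e : g x = S.min' hS := dif_neg h
      rw [e]
      exact Finset.min'_mem _ _
  have hm : Monotone g := by
    intro x y hxy
    by_cases h : (S.filter (· ≤ x)).Nonempty
    · have hsub : S.filter (· ≤ x) ⊆ S.filter (· ≤ y) := by
        intro z hz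
        rw [Finset.mem_filter] at hz ⊢
        exact ⟨hz.1, hz.2.trans hxy⟩
      have e1 : g x = (S.filter (· ≤ x)).max' h := dif_pos h
      have e2 : g y = (S.filter (· ≤ y)).max' (h.mono hsub) := dif_pos (h.mono hsub)
      rw [e1, e2]
      exact Finset.max'_subset h hsub
    · have e1 : g x = S.min' hS := dif_neg h
      rw [e1]
      exact Finset.min'_le _ _ (hg y)
  refine ⟨⟨g, hm⟩, hg, fun x hx => ?_⟩
  have hmem : x ∈ S.filter (· ≤ x) := Finset.mem_filter.2 ⟨hx, le_refl x⟩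
  have h : (S.filter (· ≤ x)).Nonempty := ⟨x, hmem⟩
  have e : g x = (S.filter (· ≤ x)).max' h := dif_pos h
  change g x = x
  rw [e]
  refine le_antisymm ?_ (Finset.le_max' _ _ hmem)
  exact (Finset.mem_filter.1 (Finset.max'_mem _ h)).2

/-- a map of the vertices that fixes the support does not move a point -/
theorem map_supp {n : ℕ} (t : stdSimplex ℝ (Fin (n + 1))) (ρ : Fin (n + 1) → Fin (n + 1))
    (h : ∀ x, t.1 x ≠ 0 → ρ x = x) : stdSimplex.map ρ t = t := by
  apply Subtype.ext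
  funext j
  change (FunOnFinite.linearMap ℝ ℝ ρ t.1) j = t.1 j
  rw [FunOnFinite.linearMap_apply_apply]
  by_cases hj : t.1 j = 0
  · rw [hj]
    refine Finset.sum_eq_zero fun x hx => ?_
    by_contra hne
    have h1 := h x hne
    have h2 : ρ x = j := by simpa using hx
    rw [h1] at h2
    rw [h2] at hne
    exact hne hj
  · refine Finset.sum_eq_single j (fun x hx hxj => ?_) (fun hn => ?_)
    · by_contra hne
      have h1 := h x hne
      have h2 : ρ x = j := by simpa using hx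
      exact hxj (h1.symm.trans h2)
    · exfalso
      apply hn
      simpa using h j hj

/-- a left inverse of the `i`-th face -/
noncomputable def li {m : ℕ} (i : Fin (m + 2)) : Fin (m + 2) → Fin (m + 1) :=
  Function.invFun i.succAbove

theorem sa_li {m : ℕ} (i : Fin (m + 2)) (y : Fin (m + 2)) (h : y ≠ i) : i.succAbove (li i y) = y :=
  Function.invFun_eq (Fin.exists_succAbove_eq h)

theorem li_sa {m : ℕ} (i : Fin (m + 2)) (x : Fin (m + 1)) : li i (i.succAbove x) = x :=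
  Function.leftInverse_invFun Fin.succAbove_right_injective x

/-- the face map as an order hom -/
def dd {m : ℕ} (i : Fin (m + 2)) : Fin (m + 1) →o Fin (m + 2) := (Fin.succAboveOrderEmb i).toOrderHom

theorem dd_ns {m : ℕ} (i : Fin (m + 2)) : ¬ Function.Surjective (dd i) := by
  intro h
  obtain ⟨x, hx⟩ := h i
  exact Fin.succAbove_ne i x hx

/-- factorisation through a face -/
theorem fac {q m : ℕ} (i : Fin (m + 2)) (θ : Fin (q + 1) →o Fin (m + 2)) (h : ∀ x, θ x ≠ i) :
    ∃ η : Fin (q + 1) →o Fin (m + 1), (dd i).comp η = θ ∧ ∀ x, η x = li i (θ x) := by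
  refine ⟨⟨fun x => li i (θ x), ?_⟩, ?_, fun _ => rfl⟩
  · intro x y hxy
    have h1 : i.succAbove (li i (θ x)) ≤ i.succAbove (li i (θ y)) := by
      rw [sa_li i _ (h x), sa_li i _ (h y)]
      exact θ.monotone hxy
    exact Fin.succAbove_le_succAbove_iff.1 h1
  · ext x
    exact congrArg Fin.val (sa_li i _ (h x))

/-- the value at the `i`-th face, extended to all points -/
noncomputable def Fi {X : Type} [TopologicalSpace X] {m : ℕ}
    (F : (SSet.boundary (m + 1) : SSet.{0}) ⟶ Sg X) (i : Fin (m + 2))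
    (t : stdSimplex ℝ (Fin (m + 2))) : X :=
  ph F (dd i) (dd_ns i) (stdSimplex.map (li i) t)

theorem Fi_cont {X : Type} [TopologicalSpace X] {m : ℕ}
    (F : (SSet.boundary (m + 1) : SSet.{0}) ⟶ Sg X) (i : Fin (m + 2)) : Continuous (Fi F i) :=
  (ph F (dd i) (dd_ns i)).continuous.comp (stdSimplex.continuous_map _)

theorem key1 {X : Type} [TopologicalSpace X] {q m : ℕ}
    (F : (SSet.boundary (m + 1) : SSet.{0}) ⟶ Sg X) (θ : Fin (q + 1) →o Fin (m + 2))
    (hθ : ¬ Function.Surjective θ) (i : Fin (m + 2)) (hi : ∀ x, θ x ≠ i)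
    (r : stdSimplex ℝ (Fin (q + 1))) : ph F θ hθ r = Fi F i (stdSimplex.map θ r) := by
  obtain ⟨η, h1, h2⟩ := fac i θ hi
  subst h1
  rw [ph_comp F (dd i) (dd_ns i) η hθ]
  unfold Fi
  rw [stdSimplex.map_comp_apply]
  change ph F (dd i) (dd_ns i) (stdSimplex.map η r) = _
  congr 2
  funext x
  exact h2 x

/-- the support -/
noncomputable def sp {n : ℕ} (t : stdSimplex ℝ (Fin (n + 1))) : Finset (Fin (n + 1)) :=
  Finset.univ.filter (fun x => t.1 x ≠ 0)

theorem sp_ne {n : ℕ} (t : stdSimplex ℝ (Fin (n + 1))) : (sp t).Nonempty := by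
  by_contra h
  rw [Finset.not_nonempty_iff_eq_empty] at h
  have h1 : ∑ x, t.1 x = 1 := t.2.2
  have h2 : ∑ x, t.1 x = 0 := by
    refine Finset.sum_eq_zero fun x _ => ?_
    by_contra hne
    have : x ∈ sp t := Finset.mem_filter.2 ⟨Finset.mem_univ x, hne⟩
    rw [h] at this
    exact absurd this (Finset.notMem_empty x)
  rw [h2] at h1
  exact zero_ne_one h1

/-- the retraction on the support -/
noncomputable def rho {n : ℕ} (t : stdSimplex ℝ (Fin (n + 1))) : Fin (n + 1) →o Fin (n + 1) :=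
  (retr (sp t) (sp_ne t)).choose

theorem rho_mem {n : ℕ} (t : stdSimplex ℝ (Fin (n + 1))) (x : Fin (n + 1)) : t.1 (rho t x) ≠ 0 :=
  (Finset.mem_filter.1 ((retr (sp t) (sp_ne t)).choose_spec.1 x)).2

theorem rho_id {n : ℕ} (t : stdSimplex ℝ (Fin (n + 1))) (x : Fin (n + 1)) (hx : t.1 x ≠ 0) :
    rho t x = x :=
  (retr (sp t) (sp_ne t)).choose_spec.2 x (Finset.mem_filter.2 ⟨Finset.mem_univ x, hx⟩)

theorem rho_av {n : ℕ} (t : stdSimplex ℝ (Fin (n + 1))) (i : Fin (n + 1)) (hi : t.1 i = 0)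
    (x : Fin (n + 1)) : rho t x ≠ i := by
  intro h
  have := rho_mem t x
  rw [h] at this
  exact this hi

theorem rho_ns {m : ℕ} (t : Bd (m + 1)) : ¬ Function.Surjective (rho t.1) := by
  obtain ⟨i, hi⟩ := t.2
  intro h
  obtain ⟨x, hx⟩ := h i
  exact rho_av t.1 i hi x hx

/-- the glued map -/
noncomputable def ff {X : Type} [TopologicalSpace X] {m : ℕ}
    (F : (SSet.boundary (m + 1) : SSet.{0}) ⟶ Sg X) (t : Bd (m + 1)) : X :=
  ph F (rho t.1) (rho_ns t) t.1

theorem ff_eq {X : Type} [TopologicalSpace X] {m : ℕ}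
    (F : (SSet.boundary (m + 1) : SSet.{0}) ⟶ Sg X) (t : Bd (m + 1)) (i : Fin (m + 2))
    (hi : t.1.1 i = 0) : ff F t = Fi F i t.1 := by
  unfold ff
  rw [key1 F (rho t.1) (rho_ns t) i (rho_av t.1 i hi), map_supp t.1 (rho t.1) (rho_id t.1)]

theorem ff_cont {X : Type} [TopologicalSpace X] {m : ℕ}
    (F : (SSet.boundary (m + 1) : SSet.{0}) ⟶ Sg X) : Continuous (ff F) := by
  refine (locallyFinite_of_finite (fun i : Fin (m + 2) => (fun t : Bd (m + 1) => t.1.1 i) ⁻¹' {0})).continuous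
    ?_ ?_ ?_
  · ext t
    rw [Set.mem_iUnion]
    exact ⟨fun _ => Set.mem_univ _, fun _ => t.2⟩
  · intro i
    refine isClosed_singleton.preimage ?_
    exact (continuous_apply i).comp (continuous_subtype_val.comp continuous_subtype_val)
  · intro i
    exact ((Fi_cont F i).comp continuous_subtype_val).continuousOn.congr (fun t ht => ff_eq F t i ht)

theorem map_zero_of {q m : ℕ} (g : Fin (q + 1) → Fin (m + 1)) (i : Fin (m + 1)) (hi : ∀ x, g x ≠ i)
    (t : stdSimplex ℝ (Fin (q + 1))) : (stdSimplex.map g t).1 i = 0 := by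
  change (FunOnFinite.linearMap ℝ ℝ g t.1) i = 0
  rw [FunOnFinite.linearMap_apply_apply]
  apply Finset.sum_eq_zero
  intro j hj
  simp only [Finset.mem_filter] at hj
  exact absurd hj.2 (hi j)

theorem ff_ph {X : Type} [TopologicalSpace X] {q m : ℕ}
    (F : (SSet.boundary (m + 1) : SSet.{0}) ⟶ Sg X) (θ : Fin (q + 1) →o Fin (m + 2))
    (hθ : ¬ Function.Surjective θ) (r : stdSimplex ℝ (Fin (q + 1))) (t : Bd (m + 1))
    (ht : t.1 = stdSimplex.map θ r) : ff F t = ph F θ hθ r := by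
  obtain ⟨i, hi⟩ : ∃ i, ∀ x, θ x ≠ i := by
    by_contra hne
    push Not at hne
    exact hθ hne
  have h0 : t.1.1 i = 0 := by
    rw [ht]
    exact map_zero_of θ i hi r
  rw [ff_eq F t i h0, key1 F θ hθ i hi, ht]

theorem ff_bpl {X : Type} [TopologicalSpace X] {q m : ℕ}
    (F : (SSet.boundary (m + 1) : SSet.{0}) ⟶ Sg X) (θ : Fin (q + 1) →o Fin (m + 2))
    (hθ : ¬ Function.Surjective θ) :
    bpl (⟨ff F, ff_cont F⟩ : C(Bd (m + 1), X)) θ hθ = ph F θ hθ := by
  ext r
  exact ff_ph F θ hθ r _ rfl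

/-- a monotone map that is not injective factors through a degeneracy -/
theorem deg_fac {k m : ℕ} (g : Fin (k + 2) →o Fin (m + 1)) (hg : ¬ Function.Injective g) :
    ∃ (i : Fin (k + 1)) (g' : Fin (k + 1) →o Fin (m + 1)),
      SimplexCategory.mkHom g = SimplexCategory.σ i ≫ SimplexCategory.mkHom g' := by
  obtain ⟨i, θ', h⟩ := SimplexCategory.eq_σ_comp_of_not_injective (SimplexCategory.mkHom g) hg
  exact ⟨i, θ'.toOrderHom, h⟩

theorem bd_step {X : Type} [TopologicalSpace X] {k m : ℕ} (u : Sing X (k + 1) → ZMod 2)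
    (hu' : NZ (Z := Sg X) (k := k) (fun z => u (eq0 (k + 1) z)))
    (hsol : ∀ m f c, Prob k u m f c → Sol (ContinuousMap.id X) k u m f c)
    (F : (SSet.boundary (m + 1) : SSet.{0}) ⟶ Sg X)
    (b : (SSet.stdSimplex.obj (SimplexCategory.mk (m + 1)) : SSet.{0}) ⟶ KK k)
    (hw : F ≫ mp _ hu' = (SSet.boundary (m + 1)).ι ≫ b) :
    ∃ l : (SSet.stdSimplex.obj (SimplexCategory.mk (m + 1)) : SSet.{0}) ⟶ Sg X,
      (SSet.boundary (m + 1)).ι ≫ l = F ∧ l ≫ mp _ hu' = b := by
  let c : (Fin (k + 2) →o Fin (m + 2)) → ZMod 2 := fun g =>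
    ev b (SSet.stdSimplex.objMk (n := ⦋m + 1⦌) (m := op ⦋k + 1⦌) g)
  have hP : Prob k u m (⟨ff F, ff_cont F⟩ : C(Bd (m + 1), X)) c := by
    refine ⟨fun g => ?_, fun g hg => ?_, fun g hg => ?_⟩
    · exact congrFun (ev_NZ b).1 (SSet.stdSimplex.objMk (n := ⦋m + 1⦌) (m := op ⦋k + 2⦌) g)
    · obtain ⟨i, g', h⟩ := deg_fac g hg
      have h1 := (ev_NZ b).2 i (SSet.stdSimplex.objMk (n := ⦋m + 1⦌) (m := op ⦋k⦌) g')
      refine Eq.trans ?_ h1
      refine congrArg (ev b) ?_
      apply SSet.stdSimplex.objEquiv.injective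
      exact h
    · rw [ff_bpl F g hg]
      have h1 := congrArg (fun t => ev t (bs g hg)) hw
      have h2 : ev (F ≫ mp _ hu') (bs g hg) = u (ph F g hg) :=
        congrFun (ev_mp _ hu') (F.app _ (bs g hg))
      exact h1.symm.trans h2
  obtain ⟨τ, h1, h2⟩ := hsol m _ c hP
  refine ⟨SSet.yonedaEquiv.symm ((eq0 (m + 1)).symm τ), ?_, ?_⟩
  · ext q s
    apply (eq0 q.unop.len).injective
    have e1 : eq0 q.unop.len ((SSet.yonedaEquiv.symm ((eq0 (m + 1)).symm τ)).app q s.1) =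
        pl τ (SSet.stdSimplex.asOrderHom s.1) := by
      have h3 := eq0_map (X := X) (SSet.stdSimplex.asOrderHom s.1) ((eq0 (m + 1)).symm τ)
      rw [Equiv.apply_symm_apply] at h3
      exact h3
    have e2 : eq0 q.unop.len (F.app q s) = ph F (SSet.stdSimplex.asOrderHom s.1) s.2 := rfl
    refine e1.trans (Eq.trans ?_ e2.symm)
    ext r
    have h4 := h1 ⟨stdSimplex.map (SSet.stdSimplex.asOrderHom s.1) r, map_mem_bd _ s.2 r⟩
    exact h4.trans (ff_ph F (SSet.stdSimplex.asOrderHom s.1) s.2 r _ rfl)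
  · apply ev_inj
    funext z
    have e1 : ev (SSet.yonedaEquiv.symm ((eq0 (m + 1)).symm τ) ≫ mp _ hu') z =
        u (eq0 (k + 1) ((SSet.yonedaEquiv.symm ((eq0 (m + 1)).symm τ)).app _ z)) :=
      congrFun (ev_mp _ hu') _
    have e2 : eq0 (k + 1) ((SSet.yonedaEquiv.symm ((eq0 (m + 1)).symm τ)).app (op ⦋k + 1⦌) z) =
        pl τ (SSet.stdSimplex.asOrderHom z) := by
      have h3 := eq0_map (X := X) (q := m + 1) (r := k + 1) (SSet.stdSimplex.asOrderHom z)
        ((eq0 (m + 1)).symm τ)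
      rw [Equiv.apply_symm_apply] at h3
      exact h3
    rw [e1, e2]
    exact h2 (SSet.stdSimplex.asOrderHom z)

theorem s_BND : S_BND := by
  intro k hk X _ _ u hu hsol
  have hu' : NZ (Z := Sg X) (k := k) (fun z => u (eq0 (k + 1) z)) :=
    ⟨by funext z; exact hu.coc (eq0 _ z), fun i s => hu.nrm i (eq0 _ s)⟩
  obtain ⟨x₀⟩ : Nonempty X := inferInstance
  refine ⟨mp _ hu', ?_⟩
  rintro _ _ _ ⟨n⟩
  refine ⟨fun {F b} sq => ?_⟩
  cases n with
  | zero =>
    have hz : ∀ (f : (SSet.stdSimplex.obj (SimplexCategory.mk 0) : SSet.{0}) ⟶ KK k)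
        (z : Sx (SSet.stdSimplex.obj (SimplexCategory.mk 0)) (k + 1)), ev f z = 0 := by
      intro f z
      have h1 := (ev_NZ f).2 0 (SSet.stdSimplex.objMk (n := ⦋0⦌) (m := op ⦋k⦌) (OrderHom.const _ 0))
      refine Eq.trans ?_ h1
      refine congrArg (ev f) ?_
      apply SSet.stdSimplex.objEquiv.injective
      exact Subsingleton.elim _ _
    refine ⟨⟨⟨SSet.yonedaEquiv.symm ((eq0 0).symm (ContinuousMap.const _ x₀)), ?_, ?_⟩⟩⟩
    · ext
    · apply ev_inj
      funext z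
      rw [hz, hz]
  | succ m =>
    obtain ⟨l, h1, h2⟩ := bd_step u hu' hsol F b sq.w
    exact ⟨⟨⟨l, h1, h2⟩⟩⟩

end Pool.Agent.L7h75.HS
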