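import Pool.Agent.L7h75.HS.Bas

/-!
# Project HS, part KJ: Kripke-Joyal semantics
-/

set_option autoImplicit false

namespace Pool.Agent.L7h75.HS

open CategoryTheory Opposite Limits MonoidalCategory Simplicial
open Pool.Agent.L7h74.HS

theorem bot_no {X : SSet.{0}} {n : ℕ} {E : Over (pw X n)} (hE : IsInitial E) {Z : SSet.{0}}
    (hZ : Z.IsConnected) (a : Z ⟶ pw X n) (f : Over.mk a ⟶ E) : False := by
  have h := hZ.nonempty
  obtain ⟨z⟩ : Nonempty (Z _⦋0⦌) := inferInstance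
  exact PEmpty.elim (((f ≫ hE.to (Over.mk (empt (pw X n)))).left).app (op ⦋0⦌) z)

theorem or_split {B : SSet.{0}} {E A A' : Over B} (i : A ⟶ E) (j : A' ⟶ E)
    (hc : IsColimit (BinaryCofan.mk i j)) {Z : SSet.{0}} (hZ : Z.IsConnected) (a : Z ⟶ B)
    (f : Over.mk a ⟶ E) : Nonempty (Over.mk a ⟶ A) ∨ Nonempty (Over.mk a ⟶ A') := by
  have e1 : copl A.left A'.left ≫ copd A.hom A'.hom = A.hom := by
    ext m z
    rfl
  have e2 : copr A.left A'.left ≫ copd A.hom A'.hom = A'.hom := by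
    ext m z
    rfl
  let S : Over B := Over.mk (copd A.hom A'.hom)
  let u : E ⟶ S := hc.desc (BinaryCofan.mk (Over.homMk (copl A.left A'.left) e1 : A ⟶ S)
    (Over.homMk (copr A.left A'.left) e2 : A' ⟶ S))
  have hw : (f ≫ u).left ≫ copd A.hom A'.hom = a := Over.w (f ≫ u)
  rcases cop_fac hZ (f ≫ u).left with ⟨g, hg⟩ | ⟨g, hg⟩
  · left
    refine ⟨Over.homMk g ?_⟩
    change g ≫ A.hom = a
    rw [← e1, ← Category.assoc, hg, hw]
  · right
    refine ⟨Over.homMk g ?_⟩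
    change g ≫ A'.hom = a
    rw [← e2, ← Category.assoc, hg, hw]

theorem kj (hC : S_CMP) : S_KJ := by
  intro X n φ
  induction φ with
  | top =>
    intro E hE Z hZ a
    obtain ⟨hT⟩ := hE
    exact ⟨fun _ => trivial, fun _ => ⟨hT.from _⟩⟩
  | bot =>
    intro E hE Z hZ a
    obtain ⟨hT⟩ := hE
    exact ⟨fun ⟨f⟩ => bot_no hT hZ a f, fun h => False.elim h⟩
  | eq i j =>
    intro E hE Z hZ a
    obtain ⟨H, hH⟩ := hE
    constructor
    · rintro ⟨f⟩
      have hw : f.left ≫ E.hom = a := Over.w f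
      have h1 := hpre H f.left
      rw [← Category.assoc, ← Category.assoc, hw] at h1
      exact ⟨h1⟩
    · rintro ⟨G⟩
      obtain ⟨h, -, -⟩ := hH (Over.mk a) G
      exact ⟨h⟩
  | and φ ψ ih1 ih2 =>
    intro E hE Z hZ a
    obtain ⟨A, B, hA, hB, a', b', ⟨hl⟩⟩ := hE
    constructor
    · rintro ⟨f⟩
      exact ⟨(ih1 A hA Z hZ a).1 ⟨f ≫ a'⟩, (ih2 B hB Z hZ a).1 ⟨f ≫ b'⟩⟩
    · rintro ⟨h1, h2⟩
      obtain ⟨f⟩ := (ih1 A hA Z hZ a).2 h1
      obtain ⟨g⟩ := (ih2 B hB Z hZ a).2 h2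
      exact ⟨hl.lift (BinaryFan.mk f g)⟩
  | or φ ψ ih1 ih2 =>
    intro E hE Z hZ a
    obtain ⟨A, B, hA, hB, a', b', ⟨hl⟩⟩ := hE
    constructor
    · rintro ⟨f⟩
      exact (or_split a' b' hl hZ a f).imp (fun h => (ih1 A hA Z hZ a).1 h)
        (fun h => (ih2 B hB Z hZ a).1 h)
    · rintro (h | h)
      · obtain ⟨f⟩ := (ih1 A hA Z hZ a).2 h
        exact ⟨f ≫ a'⟩
      · obtain ⟨f⟩ := (ih2 B hB Z hZ a).2 h
        exact ⟨f ≫ b'⟩
  | imp φ ψ ih1 ih2 =>
    intro E hE Z hZ a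
    obtain ⟨A, B, hA, hB, ev, hev⟩ := hE
    constructor
    · rintro ⟨e⟩ W hW f hf
      obtain ⟨u⟩ := (ih1 A hA W hW (f ≫ a)).2 hf
      refine (ih2 B hB W hW (f ≫ a)).1 ⟨?_⟩
      have hu : u.left ≫ A.hom = f ≫ a := Over.w u
      refine (Over.homMk (pullback.lift f u.left ?_) ?_ :
        Over.mk (f ≫ a) ⟶ (Over.map A.hom).obj ((Over.pullback A.hom).obj (Over.mk a))) ≫
          (Over.map A.hom).map ((Over.pullback A.hom).map e) ≫ ev
      · exact hu.symm
      · change pullback.lift f u.left _ ≫ pullback.snd _ _ ≫ A.hom = f ≫ a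
        rw [← Category.assoc, pullback.lift_snd, hu]
    · intro h
      obtain ⟨g, hg⟩ := hC (pw X _) ((Over.map A.hom).obj ((Over.pullback A.hom).obj (Over.mk a))).left
        B.left ((Over.map A.hom).obj ((Over.pullback A.hom).obj (Over.mk a))).hom B.hom (by
          intro W hW f
          have hp : (f ≫ pullback.fst a A.hom) ≫ a = (f ≫ pullback.snd a A.hom) ≫ A.hom := by
            rw [Category.assoc, Category.assoc, pullback.condition]
          have h1 := (ih1 A hA W hW ((f ≫ pullback.fst a A.hom) ≫ a)).1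
            ⟨Over.homMk (f ≫ pullback.snd a A.hom) hp.symm⟩
          obtain ⟨w⟩ := (ih2 B hB W hW _).2 (h W hW (f ≫ pullback.fst a A.hom) h1)
          refine ⟨w.left, ?_⟩
          have h2 : w.left ≫ B.hom = (f ≫ pullback.fst a A.hom) ≫ a := Over.w w
          rw [h2, hp]
          rfl)
      obtain ⟨e, -, -⟩ := hev (Over.mk a) (Over.homMk g hg)
      exact ⟨e⟩
  | @all n φ ih =>
    intro E hE Z hZ a
    obtain ⟨A, hA, ev, hev⟩ := hE
    constructor
    · rintro ⟨e⟩ W hW f b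
      refine (ih A hA W hW (cns (f ≫ a) b)).1 ⟨?_⟩
      refine (Over.homMk (pullback.lift f (cns (f ≫ a) b) ?_) ?_ :
        Over.mk (cns (f ≫ a) b) ⟶ (Over.pullback (prn X n)).obj (Over.mk a)) ≫
          (Over.pullback (prn X n)).map e ≫ ev
      · exact (cns_prn (f ≫ a) b).symm
      · exact pullback.lift_snd _ _ _
    · intro h
      obtain ⟨g, hg⟩ := hC (pw X (n + 1)) ((Over.pullback (prn X n)).obj (Over.mk a)).left
        A.left ((Over.pullback (prn X n)).obj (Over.mk a)).hom A.hom (by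
          intro W hW f
          have hp : (f ≫ pullback.snd a (prn X n)) ≫ prn X n = (f ≫ pullback.fst a (prn X n)) ≫ a := by
            rw [Category.assoc, Category.assoc, pullback.condition]
          have h1 := h W hW (f ≫ pullback.fst a (prn X n))
            ((f ≫ pullback.snd a (prn X n)) ≫ pr X (Fin.last n))
          rw [cns_eta _ _ hp] at h1
          obtain ⟨w⟩ := (ih A hA W hW _).2 h1
          exact ⟨w.left, Over.w w⟩)
      obtain ⟨e, -, -⟩ := hev (Over.mk a) (Over.homMk g hg)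
      exact ⟨e⟩
  | @ex n φ ih =>
    intro E hE Z hZ a
    obtain ⟨A, hA, ⟨iso⟩⟩ := hE
    constructor
    · rintro ⟨e⟩
      have hw : (e ≫ iso.hom).left ≫ A.hom ≫ prn X n = a := Over.w (e ≫ iso.hom)
      rw [← Category.assoc] at hw
      refine ⟨((e ≫ iso.hom).left ≫ A.hom) ≫ pr X (Fin.last n), ?_⟩
      rw [cns_eta _ _ hw]
      exact (ih A hA Z hZ _).1 ⟨Over.homMk (e ≫ iso.hom).left rfl⟩
    · rintro ⟨b, hb⟩
      obtain ⟨w⟩ := (ih A hA Z hZ _).2 hb
      have hw : w.left ≫ A.hom = cns a b := Over.w w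
      refine ⟨(Over.homMk w.left ?_ : Over.mk a ⟶ (Over.map (prn X n)).obj A) ≫ iso.inv⟩
      change w.left ≫ A.hom ≫ prn X n = a
      rw [← Category.assoc, hw, cns_prn]

/-- **KJ** (with the hypothesis `S_CMP`, a theorem) -/
theorem s_KJ : S_CMP → S_KJ := kj

theorem t_KJ : S_KJ := kj s_CMP

end Pool.Agent.L7h75.HS
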