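import Pool.Agent.L7h75.HS.Cmp

/-!
# Project HS: lemmas on the powers, homotopies, coproducts (for KJ and UNI)
-/

set_option autoImplicit false

namespace Pool.Agent.L7h75.HS

open CategoryTheory Opposite Limits MonoidalCategory Simplicial
open Pool.Agent.L7h74.HS

theorem cns_prn {X Z : SSet.{0}} {n : ℕ} (a : Z ⟶ pw X n) (b : Z ⟶ X) : cns a b ≫ prn X n = a := by
  ext m z
  funext i
  exact Fin.snoc_castSucc (α := fun _ => X.obj m) _ _ i

theorem cns_last {X Z : SSet.{0}} {n : ℕ} (a : Z ⟶ pw X n) (b : Z ⟶ X) :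
    cns a b ≫ pr X (Fin.last n) = b := by
  ext m z
  exact Fin.snoc_last (α := fun _ => X.obj m) _ _

theorem cns_eta {X Z : SSet.{0}} {n : ℕ} (c : Z ⟶ pw X (n + 1)) (a : Z ⟶ pw X n)
    (h : c ≫ prn X n = a) : cns a (c ≫ pr X (Fin.last n)) = c := by
  subst h
  ext m z
  funext i
  refine Fin.lastCases ?_ (fun i => ?_) i
  · exact Fin.snoc_last (α := fun _ => X.obj m) _ _
  · exact Fin.snoc_castSucc (α := fun _ => X.obj m) _ _ i

/-- precomposition of a homotopy -/
noncomputable def hpre {X Y W : SSet.{0}} {f g : X ⟶ Y} (H : SSet.Homotopy f g) (k : W ⟶ X) :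
    SSet.Homotopy (k ≫ f) (k ≫ g) :=
  SSet.RelativeMorphism.Homotopy.precomp (f' := SSet.RelativeMorphism.botEquiv.symm f)
    (g' := SSet.RelativeMorphism.botEquiv.symm g) H (SSet.RelativeMorphism.botEquiv.symm k)
    (SSet.Subcomplex.isInitialBot.hom_ext _ _)

/-- the empty simplicial set -/
def emp : SSet.{0} where
  obj _ := PEmpty
  map _ := ↾ fun z => z
  map_id m := by
    ext z
    exact PEmpty.elim z
  map_comp f g := by
    ext z
    exact PEmpty.elim z

/-- the map from the empty simplicial set -/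
def empt (X : SSet.{0}) : emp ⟶ X where
  app m := ↾ fun z => PEmpty.elim z
  naturality m m' f := by
    ext z
    exact PEmpty.elim z

/-- the disjoint union -/
def cop (A B : SSet.{0}) : SSet.{0} where
  obj m := A.obj m ⊕ B.obj m
  map f := ↾ Sum.map (fun t => A.map f t) (fun t => B.map f t)
  map_id m := by
    ext z
    cases z with
    | inl z => exact congrArg Sum.inl (ConcreteCategory.congr_hom (A.map_id m) z)
    | inr z => exact congrArg Sum.inr (ConcreteCategory.congr_hom (B.map_id m) z)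
  map_comp f g := by
    ext z
    cases z with
    | inl z => exact congrArg Sum.inl (ConcreteCategory.congr_hom (A.map_comp f g) z)
    | inr z => exact congrArg Sum.inr (ConcreteCategory.congr_hom (B.map_comp f g) z)

def copl (A B : SSet.{0}) : A ⟶ cop A B where
  app m := ↾ fun z => Sum.inl z
  naturality m m' f := by
    ext z
    rfl

def copr (A B : SSet.{0}) : B ⟶ cop A B where
  app m := ↾ fun z => Sum.inr z
  naturality m m' f := by
    ext z
    rfl

def copd {A B X : SSet.{0}} (a : A ⟶ X) (b : B ⟶ X) : cop A B ⟶ X where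
  app m := ↾ fun z => Sum.elim (fun t => a.app m t) (fun t => b.app m t) z
  naturality m m' f := by
    ext z
    cases z with
    | inl z => exact ConcreteCategory.congr_hom (a.naturality f) z
    | inr z => exact ConcreteCategory.congr_hom (b.naturality f) z

theorem fac_l {A B Z : SSet.{0}} (f : Z ⟶ cop A B)
    (h : ∀ (m : SimplexCategoryᵒᵖ) (z : Z.obj m), ∃ t : A.obj m, Sum.inl t = f.app m z) :
    ∃ g : Z ⟶ A, g ≫ copl A B = f := by
  choose g hg using h
  refine ⟨{ app := fun m => ↾ g m, naturality := ?_ }, ?_⟩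
  · intro m m' θ
    ext z
    apply Sum.inl_injective (β := B.obj m')
    change Sum.inl (g m' (Z.map θ z)) = Sum.inl (A.map θ (g m z))
    rw [hg m' (Z.map θ z)]
    have h1 : f.app m' (Z.map θ z) = (cop A B).map θ (f.app m z) :=
      ConcreteCategory.congr_hom (f.naturality θ) z
    rw [h1, ← hg m z]
    rfl
  · ext m z
    exact hg m z

theorem fac_r {A B Z : SSet.{0}} (f : Z ⟶ cop A B)
    (h : ∀ (m : SimplexCategoryᵒᵖ) (z : Z.obj m), ∃ t : B.obj m, Sum.inr t = f.app m z) :
    ∃ g : Z ⟶ B, g ≫ copr A B = f := by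
  choose g hg using h
  refine ⟨{ app := fun m => ↾ g m, naturality := ?_ }, ?_⟩
  · intro m m' θ
    ext z
    apply Sum.inr_injective (α := A.obj m')
    change Sum.inr (g m' (Z.map θ z)) = Sum.inr (B.map θ (g m z))
    rw [hg m' (Z.map θ z)]
    have h1 : f.app m' (Z.map θ z) = (cop A B).map θ (f.app m z) :=
      ConcreteCategory.congr_hom (f.naturality θ) z
    rw [h1, ← hg m z]
    rfl
  · ext m z
    exact hg m z

/-- the side of a simplex -/
def sd {A B Z : SSet.{0}} (f : Z ⟶ cop A B) {m : SimplexCategoryᵒᵖ} (z : Z.obj m) : Bool :=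
  Sum.isLeft (α := A.obj m) (β := B.obj m) (f.app m z)

theorem sd_map {A B Z : SSet.{0}} (f : Z ⟶ cop A B) {m m' : SimplexCategoryᵒᵖ} (θ : m ⟶ m')
    (z : Z.obj m) : sd f (Z.map θ z) = sd f z := by
  have h1 : f.app m' (Z.map θ z) = (cop A B).map θ (f.app m z) :=
    ConcreteCategory.congr_hom (f.naturality θ) z
  unfold sd
  rw [h1]
  exact Sum.isLeft_map _ _ _

theorem cop_fac {A B Z : SSet.{0}} (hZ : Z.IsConnected) (f : Z ⟶ cop A B) :
    (∃ g : Z ⟶ A, g ≫ copl A B = f) ∨ ∃ g : Z ⟶ B, g ≫ copr A B = f := by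
  have hS : ∃ S : SSet.π₀ Z → Bool, ∀ x : Z _⦋0⦌, S (SSet.π₀.mk x) = sd f (m := op ⦋0⦌) x := by
    refine ⟨SSet.π₀.lift (fun x => sd f (m := op ⦋0⦌) x) ?_, fun x => rfl⟩
    intro x y e
    have h1 : sd f (Z.δ 1 e.edge) = sd f (m := op ⦋1⦌) e.edge := sd_map f _ _
    have h2 : sd f (Z.δ 0 e.edge) = sd f (m := op ⦋1⦌) e.edge := sd_map f _ _
    rw [e.src_eq] at h1
    rw [e.tgt_eq] at h2
    exact h1.trans h2.symm
  obtain ⟨S, hS⟩ := hS
  have hs : ∀ (m : SimplexCategoryᵒᵖ) (z : Z.obj m), sd f z = S (cl z) := by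
    intro m z
    unfold cl
    rw [hS]
    exact (sd_map f _ z).symm
  have hsub : Subsingleton (SSet.π₀ Z) := ((SSet.isConnected_iff Z).1 hZ).1
  obtain ⟨x₀⟩ : Nonempty (SSet.π₀ Z) := inferInstance
  have hc : ∀ (m : SimplexCategoryᵒᵖ) (z : Z.obj m), sd f z = S x₀ := by
    intro m z
    rw [hs, Subsingleton.elim (cl z) x₀]
  cases h0 : S x₀ with
  | true =>
    left
    refine fac_l f fun m z => ?_
    have h1 := (hc m z).trans h0
    obtain ⟨t, ht⟩ := Sum.isLeft_iff.1 h1
    exact ⟨t, ht.symm⟩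
  | false =>
    right
    refine fac_r f fun m z => ?_
    have h1 := (hc m z).trans h0
    obtain ⟨t, ht⟩ := Sum.isLeft_eq_false.1 h1 |> Sum.isRight_iff.1
    exact ⟨t, ht.symm⟩

end Pool.Agent.L7h75.HS
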