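import Pool.Agent.L7h74.HS.Stm

/-!
# Project HS, part CMP: components of a simplicial set
-/

set_option autoImplicit false

namespace Pool.Agent.L7h75.HS

open CategoryTheory Opposite Limits MonoidalCategory Simplicial
open Pool.Agent.L7h74.HS

/-- the `j`-th vertex of a simplex -/
def vt {Z : SSet.{0}} {m : SimplexCategoryᵒᵖ} (z : Z.obj m) (j : Fin (m.unop.len + 1)) : Z _⦋0⦌ :=
  Z.map (SimplexCategory.const ⦋0⦌ m.unop j).op z

/-- the component of a simplex -/
def cl {Z : SSet.{0}} {m : SimplexCategoryᵒᵖ} (z : Z.obj m) : SSet.π₀ Z :=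
  SSet.π₀.mk (vt z 0)

theorem cl_vt {Z : SSet.{0}} {m : SimplexCategoryᵒᵖ} (z : Z.obj m) (j : Fin (m.unop.len + 1)) :
    SSet.π₀.mk (vt z j) = cl z := by
  refine (SSet.π₀.sound (SSet.Edge.mk
    (Z.map (SimplexCategory.mkOfLe (n := m.unop.len) 0 j (Fin.zero_le j)).op z) ?_ ?_)).symm
  · change Z.map (SimplexCategory.δ (1 : Fin 2)).op (Z.map _ z) = Z.map _ z
    rw [← ConcreteCategory.comp_apply, ← Functor.map_comp, ← op_comp]
    congr 2
    exact congrArg (fun t => Z.map (Quiver.Hom.op t)) (SimplexCategory.Hom.ext_zero_left _ _)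
  · change Z.map (SimplexCategory.δ (0 : Fin 2)).op (Z.map _ z) = Z.map _ z
    rw [← ConcreteCategory.comp_apply, ← Functor.map_comp, ← op_comp]
    congr 2
    exact congrArg (fun t => Z.map (Quiver.Hom.op t)) (SimplexCategory.Hom.ext_zero_left _ _)

theorem cl_map {Z : SSet.{0}} {m m' : SimplexCategoryᵒᵖ} (f : m ⟶ m') (z : Z.obj m) :
    cl (Z.map f z) = cl z := by
  have h : vt (Z.map f z) 0 = vt z (f.unop.toOrderHom 0) := by
    unfold vt
    rw [← ConcreteCategory.comp_apply, ← Functor.map_comp]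
    congr 2
  unfold cl
  rw [h]
  exact cl_vt z _

/-- the component of `Z` with class `c` -/
def cmp (Z : SSet.{0}) (c : SSet.π₀ Z) : SSet.{0} where
  obj m := {z : Z.obj m // cl z = c}
  map f := ↾ fun z => ⟨Z.map f z.1, (cl_map f z.1).trans z.2⟩
  map_id m := by
    ext z
    exact ConcreteCategory.congr_hom (Z.map_id m) z.1
  map_comp f g := by
    ext z
    exact ConcreteCategory.congr_hom (Z.map_comp f g) z.1

/-- the inclusion of a component -/
def cmpi (Z : SSet.{0}) (c : SSet.π₀ Z) : cmp Z c ⟶ Z where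
  app m := ↾ fun z => z.1
  naturality m m' f := by
    ext z
    rfl

theorem cl_zero {Z : SSet.{0}} (x : Z _⦋0⦌) : cl x = SSet.π₀.mk x := by
  unfold cl vt
  congr 1
  have h : SimplexCategory.const ⦋0⦌ ⦋0⦌ 0 = 𝟙 _ := SimplexCategory.const_eq_id
  change Z.map (SimplexCategory.const ⦋0⦌ ⦋0⦌ 0).op x = x
  rw [h, op_id]
  exact ConcreteCategory.congr_hom (Z.map_id _) x

theorem cmp_edge {Z : SSet.{0}} {x y : Z _⦋0⦌} (h : Relation.EqvGen SSet.π₀Rel x y) (c : SSet.π₀ Z)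
    (hx : cl x = c) (hy : cl y = c) :
    SSet.π₀.mk (X := cmp Z c) ⟨x, hx⟩ = SSet.π₀.mk (X := cmp Z c) ⟨y, hy⟩ := by
  induction h with
  | rel x y h =>
    obtain ⟨e⟩ := h
    have h0 : (cl (e.edge : Z.obj (op ⦋1⦌))) = c := by
      have h1 : cl (Z.δ 1 e.edge) = cl (e.edge : Z.obj (op ⦋1⦌)) := cl_map _ _
      rw [e.src_eq] at h1
      exact h1.symm.trans hx
    refine SSet.π₀.sound (SSet.Edge.mk (X := cmp Z c) (⟨e.edge, h0⟩ : (cmp Z c).obj (op ⦋1⦌)) ?_ ?_)
    · exact Subtype.ext e.src_eq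
    · exact Subtype.ext e.tgt_eq
  | refl x => rfl
  | symm x y _ ih => exact (ih hy hx).symm
  | trans x y z h1 h2 ih1 ih2 =>
    have h3 : cl y = c := by
      rw [← hx, cl_zero, cl_zero]
      exact ((SSet.π₀.mk_eq_mk_iff x y).2 h1).symm
    exact (ih1 hx h3).trans (ih2 h3 hy)

theorem cmp_conn (Z : SSet.{0}) (c : SSet.π₀ Z) : (cmp Z c).IsConnected := by
  rw [SSet.isConnected_iff]
  constructor
  · refine ⟨fun x y => ?_⟩
    induction x with
    | mk x =>
      induction y with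
      | mk y =>
        obtain ⟨x, hx⟩ := x
        obtain ⟨y, hy⟩ := y
        refine cmp_edge ((SSet.π₀.mk_eq_mk_iff x y).1 ?_) c hx hy
        rw [← cl_zero, ← cl_zero, hx, hy]
  · rw [← SSet.π₀.nonempty_iff]
    obtain ⟨x, rfl⟩ := SSet.π₀.mk_surjective c
    exact ⟨SSet.π₀.mk ⟨x, cl_zero x⟩⟩

theorem s_CMP : S_CMP := by
  intro B Z E a p h
  choose hh hhc using fun c : SSet.π₀ Z => h (cmp Z c) (cmp_conn Z c) (cmpi Z c)
  have key : ∀ (c : SSet.π₀ Z) (m : SimplexCategoryᵒᵖ) (z : Z.obj m) (hz : cl z = c),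
      (hh (cl z)).app m ⟨z, rfl⟩ = (hh c).app m ⟨z, hz⟩ := by
    intro c m z hz
    subst hz
    rfl
  refine ⟨{ app := fun m => ↾ fun z => (hh (cl z)).app m ⟨z, rfl⟩, naturality := ?_ }, ?_⟩
  · intro m m' f
    ext z
    change (hh (cl (Z.map f z))).app m' ⟨Z.map f z, rfl⟩ = E.map f ((hh (cl z)).app m ⟨z, rfl⟩)
    rw [key (cl z) m' (Z.map f z) (cl_map f z)]
    exact ConcreteCategory.congr_hom ((hh (cl z)).naturality f) ⟨z, rfl⟩
  · ext m z
    have h1 := ConcreteCategory.congr_hom (congrArg (fun t => t.app m) (hhc (cl z))) ⟨z, rfl⟩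
    exact h1

end Pool.Agent.L7h75.HS
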