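import Pool.Agent.L7h74.HS.Stm

/-!
# Project HS, part REP: maps to `KK k` are the normalised cocycles
-/

set_option autoImplicit false

namespace Pool.Agent.L7h75.HS

open CategoryTheory Opposite Limits MonoidalCategory Simplicial
open Pool.Agent.L7h74.HS

theorem ev_key {k : ℕ} {Z : SSet.{0}} (f : Z ⟶ KK k) {m : SimplexCategoryᵒᵖ} (z : Z.obj m)
    (w : Sx (SSet.stdSimplex.obj m.unop) (k + 1)) :
    (f.app m z).1 w = ev f (Z.map (SSet.stdSimplex.objEquiv w).op z) := by
  have h := ConcreteCategory.congr_hom (f.naturality (SSet.stdSimplex.objEquiv w).op) z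
  have h2 : (f.app _ (Z.map (SSet.stdSimplex.objEquiv w).op z)).1
      (SSet.stdSimplex.objEquiv.symm (𝟙 _)) =
      (f.app m z).1 ((SSet.stdSimplex.map (SSet.stdSimplex.objEquiv w)).app _
        (SSet.stdSimplex.objEquiv.symm (𝟙 _))) := by
    exact congrArg (fun c : (KK k).obj (op (SimplexCategory.mk (k + 1))) =>
      c.1 (SSet.stdSimplex.objEquiv.symm (𝟙 _))) h
  refine Eq.trans ?_ h2.symm
  refine congrArg (f.app m z).1 ?_
  have h3 : (SSet.stdSimplex.map (SSet.stdSimplex.objEquiv w)).app (op (SimplexCategory.mk (k + 1)))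
      (SSet.stdSimplex.objEquiv.symm (𝟙 _)) = SSet.stdSimplex.objEquiv.symm
        (𝟙 _ ≫ SSet.stdSimplex.objEquiv w) := rfl
  rw [Category.id_comp, Equiv.symm_apply_apply] at h3
  exact h3.symm

theorem ev_NZ {k : ℕ} {Z : SSet.{0}} (f : Z ⟶ KK k) : NZ (ev f) := by
  constructor
  · funext z
    have h1 := congrFun (f.app _ z).2.1 (SSet.stdSimplex.objEquiv.symm (𝟙 _))
    refine Eq.trans ?_ h1
    refine Finset.sum_congr rfl fun i _ => ?_
    rw [ev_key f z]
    rfl
  · intro i s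
    have h1 := (f.app _ s).2.2 i (SSet.stdSimplex.objEquiv.symm (𝟙 _))
    refine Eq.trans ?_ h1
    rw [ev_key f s]
    rfl

theorem ev_inj {k : ℕ} {Z : SSet.{0}} (f g : Z ⟶ KK k) (h : ev f = ev g) : f = g := by
  ext m z
  apply Subtype.ext
  funext w
  exact (ev_key f z w).trans ((congrFun h _).trans (ev_key g z w).symm)

/-- the map of a cocycle -/
def mp {k : ℕ} {Z : SSet.{0}} (u : Sx Z (k + 1) → ZMod 2) (hu : NZ u) : Z ⟶ KK k where
  app m := ↾ fun z => ⟨rs (SSet.yonedaEquiv (n := m.unop).symm z) u, hu.rs _⟩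
  naturality m m' θ := by
    ext z
    apply Subtype.ext
    funext w
    change u ((SSet.yonedaEquiv (n := m'.unop).symm (Z.map θ z)).app _ w) =
      u ((SSet.yonedaEquiv (n := m.unop).symm z).app _ ((SSet.stdSimplex.map θ.unop).app _ w))
    refine congrArg u ?_
    exact (ConcreteCategory.congr_hom (NatTrans.congr_app
      (SSet.yonedaEquiv_symm_naturality_left θ.unop z) (op (SimplexCategory.mk (k + 1)))) w).symm

theorem ev_mp {k : ℕ} {Z : SSet.{0}} (u : Sx Z (k + 1) → ZMod 2) (hu : NZ u) : ev (mp u hu) = u := by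
  funext z
  change u ((SSet.yonedaEquiv.symm z).app _ (SSet.stdSimplex.objEquiv.symm (𝟙 _))) = u z
  congr 1
  change Z.map (𝟙 _) z = z
  exact ConcreteCategory.congr_hom (Z.map_id _) z

/-- **REP** -/
theorem s_REP : S_REP := fun _ _ => ⟨ev_NZ, ev_inj, fun u hu => ⟨mp u hu, ev_mp u hu⟩⟩

end Pool.Agent.L7h75.HS
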